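import Mathlib

/-!
For every odd `k ≥ 5` there is a `k`-regular self 2-distance graph on `2 * (k + 1)` vertices.
-/

namespace Pool.Agent.Results.MP_325f40_co.OddRegular

open SimpleGraph

/-- The 2-distance graph: vertices are adjacent exactly when their distance is two. -/
def twoDist {V : Type} (G : SimpleGraph V) : SimpleGraph V where
  Adj u v := G.dist u v = 2
  symm := ⟨fun u v h => by rw [dist_comm]; exact h⟩
  loopless := ⟨fun u h => by rw [dist_self] at h; exact absurd h (by decide)⟩

/-- Adjacency of `(i, s)` and `(i, t)`. -/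
def tabS : Fin 4 → Fin 4 → Bool
  | 0, 1 => true
  | 1, 0 => true
  | 2, 3 => true
  | 3, 2 => true
  | _, _ => false

/-- Adjacency of `(i, s)` and `(j, t)` with `i ≠ j`. -/
def tabR : Fin 4 → Fin 4 → Bool
  | 0, 0 => true
  | 2, 2 => true
  | 1, 3 => true
  | 3, 1 => true
  | 0, 3 => true
  | 3, 0 => true
  | 1, 2 => true
  | 2, 1 => true
  | _, _ => false

/-- The graph on `Fin m × Fin 4` (for `m = 3` it is the icosahedron). -/
def G (m : ℕ) : SimpleGraph (Fin m × Fin 4) where
  Adj u v := if u.1 = v.1 then tabS u.2 v.2 = true else tabR u.2 v.2 = true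
  symm := ⟨by
    have h1 : ∀ s t, tabS s t = tabS t s := by decide
    have h2 : ∀ s t, tabR s t = tabR t s := by decide
    rintro ⟨i, s⟩ ⟨j, t⟩ h
    simp only at h ⊢
    by_cases hij : i = j
    · rw [if_pos hij] at h
      rw [if_pos hij.symm, h1]; exact h
    · rw [if_neg hij] at h
      rw [if_neg (Ne.symm hij), h2]; exact h⟩
  loopless := ⟨by
    have h1 : ∀ s, ¬ tabS s s = true := by decide
    rintro ⟨i, s⟩ h
    simp only [if_true] at h
    exact h1 s h⟩

instance (m : ℕ) : DecidableRel (G m).Adj := fun u v =>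
  inferInstanceAs (Decidable (if u.1 = v.1 then tabS u.2 v.2 = true else tabR u.2 v.2 = true))

theorem adj_same {m : ℕ} (i : Fin m) (s t : Fin 4) :
    (G m).Adj (i, s) (i, t) ↔ tabS s t = true := by
  show (if i = i then tabS s t = true else tabR s t = true) ↔ _
  rw [if_pos rfl]

theorem adj_ne {m : ℕ} {i j : Fin m} (h : i ≠ j) (s t : Fin 4) :
    (G m).Adj (i, s) (j, t) ↔ tabR s t = true := by
  show (if i = j then tabS s t = true else tabR s t = true) ↔ _
  rw [if_neg h]

theorem dist_two_iff {V : Type} (H : SimpleGraph V) (u v : V) :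
    H.dist u v = 2 ↔ u ≠ v ∧ ¬ H.Adj u v ∧ ∃ w, H.Adj u w ∧ H.Adj w v := by
  constructor
  · intro h
    have hr : H.Reachable u v := by
      by_contra hc
      rw [dist_eq_zero_of_not_reachable hc] at h
      omega
    obtain ⟨p, hp⟩ := hr.exists_walk_length_eq_dist
    rw [h] at hp
    refine ⟨?_, ?_, ?_⟩
    · rintro rfl
      rw [dist_self] at h; omega
    · intro ha
      rw [dist_eq_one_iff_adj.2 ha] at h; omega
    · match p, hp with
      | Walk.cons h1 (Walk.cons h2 Walk.nil), _ => exact ⟨_, h1, h2⟩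
  · rintro ⟨h1, h2, w, h3, h4⟩
    have hle : H.dist u v ≤ 2 := by
      have := dist_le (Walk.cons h3 (Walk.cons h4 Walk.nil))
      simpa using this
    have hr : H.Reachable u v := ⟨Walk.cons h3 (Walk.cons h4 Walk.nil)⟩
    have h0 : H.dist u v ≠ 0 := fun h => h1 (hr.dist_eq_zero_iff.1 h)
    have h1' : H.dist u v ≠ 1 := fun h => h2 (dist_eq_one_iff_adj.1 h)
    omega

theorem adj_iff {m : ℕ} (hm : 3 ≤ m) (u v : Fin m × Fin 4) :
    (G m).Adj u v ↔ (G m).dist (u.1, u.2 + 1) (v.1, v.2 + 1) = 2 := by
  rw [dist_two_iff]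
  obtain ⟨i, s⟩ := u
  obtain ⟨j, t⟩ := v
  simp only
  by_cases hij : i = j
  · subst hij
    -- some other index
    obtain ⟨l, hl⟩ : ∃ l : Fin m, l ≠ i := by
      have : Nontrivial (Fin m) := Fin.nontrivial_iff_two_le.2 (by omega)
      exact exists_ne i
    rw [adj_same, adj_same]
    constructor
    · intro h
      have key : ∀ s t, tabS s t = true → s + 1 ≠ t + 1 ∧ ¬ tabS (s + 1) (t + 1) = true ∧
          ∃ r, tabR (s + 1) r = true ∧ tabR r (t + 1) = true := by decide
      obtain ⟨k1, k2, r, k3, k4⟩ := key s t h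
      refine ⟨fun h => k1 (Prod.ext_iff.1 h).2, k2, (l, r), ?_, ?_⟩
      · exact (adj_ne hl.symm _ _).2 k3
      · exact (adj_ne hl _ _).2 k4
    · rintro ⟨h1, h2, ⟨l, r⟩, h3, h4⟩
      have h1' : s + 1 ≠ t + 1 := fun h => h1 (by rw [h])
      by_cases hil : i = l
      · subst hil
        rw [adj_same] at h3 h4
        have key : ∀ s t r, s + 1 ≠ t + 1 → tabS (s + 1) r = true → tabS r (t + 1) = true →
          tabS s t = true := by decide
        exact key s t r h1' h3 h4
      · rw [adj_ne hil] at h3
        rw [adj_ne (Ne.symm hil)] at h4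
        have key : ∀ s t r, s + 1 ≠ t + 1 → ¬ tabS (s + 1) (t + 1) = true →
          tabR (s + 1) r = true → tabR r (t + 1) = true → tabS s t = true := by decide
        exact key s t r h1' h2 h3 h4
  · rw [adj_ne hij, adj_ne hij]
    constructor
    · intro h
      refine ⟨fun h => hij (Prod.ext_iff.1 h).1, ?_, ?_⟩
      · have key : ∀ s t, tabR s t = true → ¬ tabR (s + 1) (t + 1) = true := by decide
        exact key s t h
      · -- a common neighbour: over `i`, over `j` or over a third index
        have key : ∀ s t, tabR s t = true →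
            (∃ r, tabS (s + 1) r = true ∧ tabR r (t + 1) = true) ∨
            (∃ r, tabR (s + 1) r = true ∧ tabS r (t + 1) = true) ∨
            (∃ r, tabR (s + 1) r = true ∧ tabR r (t + 1) = true) := by decide
        rcases key s t h with ⟨r, k1, k2⟩ | ⟨r, k1, k2⟩ | ⟨r, k1, k2⟩
        · exact ⟨(i, r), (adj_same _ _ _).2 k1, (adj_ne hij _ _).2 k2⟩
        · exact ⟨(j, r), (adj_ne hij _ _).2 k1, (adj_same _ _ _).2 k2⟩
        · obtain ⟨l, hl⟩ : ∃ l : Fin m, l ∉ ({i, j} : Finset (Fin m)) := by
            by_contra hc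
            push Not at hc
            have h1 : (Finset.univ : Finset (Fin m)) ⊆ {i, j} := fun x _ => hc x
            have h2 := Finset.card_le_card h1
            rw [Finset.card_univ, Fintype.card_fin] at h2
            have h3 := Finset.card_le_two (a := i) (b := j)
            omega
          simp only [Finset.mem_insert, Finset.mem_singleton, not_or] at hl
          exact ⟨(l, r), (adj_ne (Ne.symm hl.1) _ _).2 k1, (adj_ne hl.2 _ _).2 k2⟩
    · rintro ⟨-, h2, -⟩
      have key : ∀ s t, ¬ tabR (s + 1) (t + 1) = true → tabR s t = true := by decide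
      exact key s t h2

/-- The isomorphism with the 2-distance graph. -/
def iso {m : ℕ} (hm : 3 ≤ m) : G m ≃g twoDist (G m) where
  toEquiv := Equiv.prodCongr (Equiv.refl _) (Equiv.addRight (1 : Fin 4))
  map_rel_iff' := by
    intro u v
    exact (adj_iff hm u v).symm

theorem regular (m : ℕ) (hm : 3 ≤ m) : (G m).IsRegularOfDegree (2 * m - 1) := by
  rintro ⟨i, s⟩
  rw [← card_neighborFinset_eq_degree, neighborFinset_eq_filter, Finset.card_filter,
    Fintype.sum_prod_type]
  have h : ∀ j : Fin m, (∑ t : Fin 4, if (G m).Adj (i, s) (j, t) then 1 else 0) =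
      if j = i then 1 else 2 := by
    intro j
    by_cases hj : i = j
    · subst hj
      simp only [adj_same, if_true]
      revert s; decide
    · simp only [adj_ne hj, if_neg (Ne.symm hj)]
      revert s; decide
  rw [Finset.sum_congr rfl fun j _ => h j]
  rw [Finset.sum_ite, Finset.sum_const, Finset.sum_const]
  have h1 : (Finset.univ.filter fun j : Fin m => j = i).card = 1 := by
    rw [Finset.filter_eq' Finset.univ i]; simp
  have h2 : (Finset.univ.filter fun j : Fin m => ¬ j = i).card = m - 1 := by
    have := Finset.card_filter_add_card_filter_not (s := (Finset.univ : Finset (Fin m)))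
      (fun j => j = i)
    rw [h1, Finset.card_univ, Fintype.card_fin] at this
    omega
  rw [h1, h2]
  simp only [smul_eq_mul]
  omega

/-- For every odd `k ≥ 5` there is a `k`-regular graph on `2 * (k + 1)` vertices that is
isomorphic to its 2-distance graph. -/
theorem result : ∀ k : ℕ, Odd k → 5 ≤ k →
    ∃ (V : Type) (_ : Fintype V) (H : SimpleGraph V) (_ : DecidableRel H.Adj),
      Fintype.card V = 2 * (k + 1) ∧ H.IsRegularOfDegree k ∧ Nonempty (H ≃g twoDist H) := by
  rintro k ⟨n, rfl⟩ hk
  refine ⟨Fin (n + 1) × Fin 4, inferInstance, G (n + 1), inferInstance, ?_, ?_,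
    ⟨iso (by omega)⟩⟩
  · rw [Fintype.card_prod, Fintype.card_fin, Fintype.card_fin]; omega
  · have := regular (n + 1) (by omega)
    rwa [show 2 * (n + 1) - 1 = 2 * n + 1 by omega] at this

end Pool.Agent.Results.MP_325f40_co.OddRegular
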